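import Pool.Agent.V5helper33.EHS.Stm

/-! # Project EHS, job EVT: the probability that one count is not close -/

set_option autoImplicit false

namespace Pool.Agent.V5helper53.EHS

open Finset MeasureTheory ProbabilityTheory Filter
open scoped ENNReal Topology
open Pool.Agent.W41 (V)
open Pool.Agent.V5helper42.RS (W model TT)
open Pool.Agent.V5helper33.EHS

/-- the deterministic part -/
theorem close_aux {F y H v e E : ℝ} (hv : 0 < v) (he : e ≤ E / 4) (hy0 : 0 ≤ y)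
    (hy : |y - H| ≤ 1) (hH : 1 ≤ H) (hE0 : 0 < E) (hE : 4 ≤ E * H)
    (h : |F - y * v| ≤ e * (y * v)) : |F - H * v| ≤ E * (H * v) := by
  have h1 : F - H * v = (F - y * v) + (y - H) * v := by ring
  have h2 : |F - H * v| ≤ |F - y * v| + |y - H| * v := by
    rw [h1]
    refine (abs_add_le _ _).trans (le_of_eq ?_)
    rw [abs_mul, abs_of_pos hv]
  have h3 : |y - H| * v ≤ 1 * v := mul_le_mul_of_nonneg_right hy hv.le
  have h4 : e * (y * v) ≤ E / 4 * (y * v) :=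
    mul_le_mul_of_nonneg_right he (mul_nonneg hy0 hv.le)
  have h5 : y ≤ H + 1 := by linarith [(abs_le.1 hy).2]
  have h6 : E / 4 * (y * v) ≤ E / 4 * ((H + 1) * v) := by gcongr
  have h7 : E / 4 * (H + 1) + 1 ≤ E * H := by nlinarith
  have h8 : (E / 4 * (H + 1) + 1) * v ≤ E * H * v := mul_le_mul_of_nonneg_right h7 hv.le
  nlinarith

theorem t_EVT (hAP : S_AP) (hCON : S_CON) (hPAR : S_PAR) : S_EVT := by
  intro A j hj
  obtain ⟨C0, hC0, hap⟩ := hAP
  filter_upwards [hPAR C0 A j (by omega) hj, eventually_ge_atTop 3] with x hx hx3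
  obtain ⟨b, w, hb, hw, hbw, h1, h2, h3, h4, h5⟩ := hx
  intro Ω _ μ _ a hset m h q c hq hcq hqm hX T hT hTq hV
  obtain ⟨m', y, hy, hF⟩ := hCON q c m h hq hcq hqm
  have hx3' : (3 : ℝ) ≤ x := by exact_mod_cast hx3
  have hx0 : (0 : ℝ) < x := by linarith
  obtain ⟨L, hLd⟩ : ∃ L, L = Real.log x := ⟨_, rfl⟩
  obtain ⟨X, hXd⟩ : ∃ X : ℝ, X = (x : ℝ) ^ (1 / (j : ℝ)) := ⟨_, rfl⟩
  have hL : 0 < L := by rw [hLd]; exact Real.log_pos (by linarith)
  rw [← hLd] at h2 h3 h4 h5 hV ⊢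
  rw [← hXd] at h1 h4 h5 hX
  have hy' := abs_le.1 hy
  have hyX : X - 1 ≤ y := by linarith [hy'.1]
  have hwy : w ^ (C0 * b) ≤ y := by
    have : ((w ^ (C0 * b) : ℕ) : ℝ) ≤ y := h1.trans hyX
    exact_mod_cast this
  have hV0 : 0 < V T := lt_of_lt_of_le (by positivity) hV
  have hy0 : (0 : ℝ) ≤ y := Nat.cast_nonneg _
  have hwV : (w : ℝ) ≤ y * V T := by
    have h6 : (w : ℝ) * (2 * L) ≤ y := h4.trans hyX
    have h7 : (y : ℝ) * (1 / (2 * L)) ≤ y * V T := mul_le_mul_of_nonneg_left hV hy0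
    refine le_trans ?_ h7
    rw [mul_one_div, le_div_iff₀ (by positivity)]
    exact h6
  have hE := hap Ω μ a hset.meas hset.indep hset.unif b w y hb hw hbw hwy T hT hwV q c hq hTq m'
  have hLA : 0 < L ^ A := pow_pos hL A
  have hE0 : 0 < (L ^ A)⁻¹ := inv_pos.2 hLA
  have hX1 : (1 : ℝ) ≤ ((w ^ (C0 * b) : ℕ) : ℝ) := by
    exact_mod_cast Nat.one_le_pow _ _ (by omega)
  have hH1 : (1 : ℝ) ≤ (h : ℝ) / q := by linarith
  have hEH : 4 ≤ (L ^ A)⁻¹ * ((h : ℝ) / q) := by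
    have h6 : 4 * L ^ A ≤ (h : ℝ) / q := h5.trans hX
    calc (4 : ℝ) = (L ^ A)⁻¹ * (4 * L ^ A) := by field_simp
      _ ≤ _ := mul_le_mul_of_nonneg_left h6 hE0.le
  refine (measure_mono ?_).trans (hE.trans (ENNReal.ofReal_le_ofReal ?_))
  · intro ω hω hle
    apply hω
    unfold Close
    rw [hF (fun p => a p ω) T]
    exact close_aux hV0 h2 hy0 hy hH1 hE0 hEH hle
  · have h6 : (1 / (2 * L)) ^ 2 ≤ V T ^ 2 := pow_le_pow_left₀ (by positivity) hV 2
    have h7 : (0 : ℝ) ≤ (4 * (1/2 : ℝ) ^ b) ^ 2 * w := by positivity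
    have h8 : 6 * L ≤ (4 * (1/2 : ℝ) ^ b) ^ 2 * w * V T ^ 2 / 16 := by
      refine h3.trans ?_
      have := mul_le_mul_of_nonneg_left h6 h7
      linarith
    have h9 : Real.exp (-((4 * (1/2 : ℝ) ^ b) ^ 2 * w * V T ^ 2 / 16)) ≤ Real.exp (-(6 * L)) :=
      Real.exp_le_exp.2 (by linarith)
    have h10 : Real.exp (-(6 * L)) = ((x : ℝ) ^ 6)⁻¹ := by
      rw [Real.exp_neg, hLd]
      congr 1
      rw [show (6 : ℝ) * Real.log x = ((6 : ℕ) : ℝ) * Real.log x by norm_num, Real.exp_nat_mul,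
        Real.exp_log hx0]
    rw [h10] at h9
    have h11 : 2 * ((x : ℝ) ^ 6)⁻¹ ≤ 1 / (x : ℝ) ^ 5 := by
      rw [← div_eq_mul_inv, div_le_div_iff₀ (by positivity) (by positivity)]
      have h12 : (x : ℝ) ^ 6 = x * (x : ℝ) ^ 5 := by ring
      rw [h12, one_mul]
      exact mul_le_mul_of_nonneg_right (by linarith) (by positivity)
    linarith

end Pool.Agent.V5helper53.EHS
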